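import Mathlib
import Pool.Agent.Y525.TT.Main

/-!
# An upper bound for the torsion of simplicial complexes on `n` vertices

`Cx n` is a simplicial complex with vertices among `0, …, n - 1` and `torsOrder X d` is the order
of the torsion subgroup of `H_{d-1}(X; ℤ)`, see `Pool/Agent/Y525/TT/Defs.lean`.

Kalai's bound for the square of this order is `(d + 1) ^ binom (n - 2) d`; it comes from
Hadamard's inequality for the boundary matrix. Two columns of the boundary matrix which share a
`(d-1)`-face are not orthogonal; the Gram-Schmidt process, with every column corrected by the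
previous columns through its facets, gives the sharper base `∑_{k=0}^{d} d / (d + k)`.
-/

set_option autoImplicit false

namespace Pool.Agent.Results.MP_9701dc_gt.SharperHadamard

open Pool.Agent.Y525.TT

/-- For all `d ≥ 2` and `n ≥ d + 1` and every simplicial complex `X` on `n` vertices the square of
the order of the torsion subgroup of `H_{d-1}(X; ℤ)` is at most `b ^ binom (n - 2) d` with
`b = ∑_{k=0}^{d} d / (d + k)`. -/
theorem result (n d : ℕ) (hd : 2 ≤ d) (hn : d + 1 ≤ n) (X : Cx n) :
    (torsOrder X d : ℝ) ^ 2 ≤
      (∑ k ∈ Finset.range (d + 1), (d : ℝ) / (d + k)) ^ ((n - 2).choose d) :=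
  tors_le (by omega) X ⟨0, by omega⟩ ⟨1, by omega⟩ (by simp)

end Pool.Agent.Results.MP_9701dc_gt.SharperHadamard
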